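import Pool.Agent.L7h49.WN.Def

/-! Part UPP of project WN (helper49). -/

set_option autoImplicit false

noncomputable section

namespace Pool.Agent.L7h76.WN
open Pool.Agent.L7h49.WN

theorem wt_append {x y z : V} (p : G.Walk x y) (q : G.Walk y z) :
    wt (p.append q) = wt p + wt q := by
  simp [wt, SimpleGraph.Walk.darts_append]

theorem wt_reverse (hOM : S_OM) {x y : V} (p : G.Walk x y) : wt p.reverse = wt p := by
  unfold wt
  rw [SimpleGraph.Walk.darts_reverse, List.map_reverse, List.sum_reverse, List.map_map]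
  congr 1
  refine List.map_congr_left ?_
  intro d _
  simp only [Function.comp, SimpleGraph.Dart.symm_mk, SimpleGraph.Dart.symm]
  exact (hOM _ _).1

theorem short (hOM : S_OM) {x y : V} (h : ‖pos x - pos y‖ ≤ 2) : ∃ p : G.Walk x y, wt p ≤ 42 := by
  by_cases hxy : x = y
  · subst hxy
    exact ⟨SimpleGraph.Walk.nil, by simp [wt]⟩
  · have hadj : G.Adj x y := ⟨hxy, h⟩
    refine ⟨SimpleGraph.Walk.cons hadj SimpleGraph.Walk.nil, ?_⟩
    simp only [wt, SimpleGraph.Walk.darts_cons, SimpleGraph.Walk.darts_nil, List.map_cons,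
      List.map_nil, List.sum_cons, List.sum_nil, add_zero]
    exact (hOM x y).2.2

theorem sq2 : ((√2 : ℝ) : ℂ) * ((√2 : ℝ) : ℂ) = 2 := by
  rw [← Complex.ofReal_mul, Real.mul_self_sqrt (by norm_num)]; norm_num

theorem sq2ne : ((√2 : ℝ) : ℂ) ≠ 0 := by
  intro h
  have := sq2
  rw [h] at this
  norm_num at this

theorem zeta_sq : zeta ^ 2 = Complex.I := by
  have h := sq2
  unfold zeta
  rw [div_pow, pow_two ((√2 : ℝ) : ℂ), h]
  rw [div_eq_iff (by norm_num)]
  ring_nf
  rw [Complex.I_sq]; ring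

theorem norm_zeta : ‖zeta‖ = 1 := by
  have h : ‖zeta‖ ^ 2 = 1 := by
    rw [← norm_pow, zeta_sq]; simp
  have h0 := norm_nonneg zeta
  nlinarith

theorem norm_zeta_mul (s : ℕ) (w : ℂ) : ‖zeta ^ s * w‖ = ‖w‖ := by
  rw [norm_mul, norm_pow, norm_zeta, one_pow, one_mul]

/-- one of the four directions is close -/
theorem ang (D : ℂ) : ∃ (s : Fin 4) (d : ℂ), D = zeta ^ (s : ℕ) * d ∧
    |d.im| ≤ 5 / 12 * |d.re| := by
  have hr : (0 : ℝ) < √2 := by positivity
  by_cases h0 : |D.im| ≤ 5 / 12 * |D.re|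
  · exact ⟨0, D, by simp, h0⟩
  by_cases h2 : |D.re| ≤ 5 / 12 * |D.im|
  · refine ⟨2, ⟨D.im, -D.re⟩, ?_, ?_⟩
    · change D = zeta ^ 2 * _
      rw [zeta_sq]
      apply Complex.ext <;> simp
    · simpa using h2
  push Not at h0 h2
  have hre : |D.re - D.im| ≤ 5 / 12 * |D.re + D.im| ∨ |D.re + D.im| ≤ 5 / 12 * |D.re - D.im| := by
    rcases abs_cases D.re with ⟨e1, f1⟩ | ⟨e1, f1⟩ <;>
    rcases abs_cases D.im with ⟨e2, f2⟩ | ⟨e2, f2⟩
    · left
      rw [e1, e2] at h0 h2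
      rw [abs_of_nonneg (by linarith : 0 ≤ D.re + D.im), abs_le]
      constructor <;> linarith
    · right
      rw [e1, e2] at h0 h2
      rw [abs_of_nonneg (by linarith : 0 ≤ D.re - D.im), abs_le]
      constructor <;> linarith
    · right
      rw [e1, e2] at h0 h2
      rw [abs_of_nonpos (by linarith : D.re - D.im ≤ 0), abs_le]
      constructor <;> linarith
    · left
      rw [e1, e2] at h0 h2
      rw [abs_of_nonpos (by linarith : D.re + D.im ≤ 0), abs_le]
      constructor <;> linarith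
  have hD : D = (D.re : ℂ) + (D.im : ℂ) * Complex.I := (Complex.re_add_im D).symm
  rcases hre with h | h
  · refine ⟨1, ⟨(D.re + D.im) / √2, (D.im - D.re) / √2⟩, ?_, ?_⟩
    · change D = zeta ^ 1 * _
      rw [pow_one]
      have e : (⟨(D.re + D.im) / √2, (D.im - D.re) / √2⟩ : ℂ)
          = (((D.re : ℂ) + D.im) + ((D.im : ℂ) - D.re) * Complex.I) / ((√2 : ℝ) : ℂ) := by
        rw [Complex.mk_eq_add_mul_I]
        push_cast
        ring
      rw [e]
      unfold zeta
      rw [div_mul_div_comm, sq2, eq_div_iff (by norm_num)]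
      conv_lhs => rw [hD]
      ring_nf
      rw [Complex.I_sq]
      ring
    · simp only
      rw [abs_div, abs_div, abs_of_pos hr, ← mul_div_assoc]
      rw [abs_sub_comm] at h
      exact (div_le_div_iff_of_pos_right hr).2 h
  · refine ⟨3, ⟨(D.im - D.re) / √2, -(D.re + D.im) / √2⟩, ?_, ?_⟩
    · change D = zeta ^ 3 * _
      have e : (⟨(D.im - D.re) / √2, -(D.re + D.im) / √2⟩ : ℂ)
          = (((D.im : ℂ) - D.re) - ((D.re : ℂ) + D.im) * Complex.I) / ((√2 : ℝ) : ℂ) := by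
        rw [Complex.mk_eq_add_mul_I]
        push_cast
        ring
      have e3 : zeta ^ 3 = Complex.I * ((1 + Complex.I) / ((√2 : ℝ) : ℂ)) := by
        rw [pow_succ, zeta_sq]; rfl
      rw [e, e3, mul_assoc, div_mul_div_comm, sq2, mul_div_assoc', eq_div_iff (by norm_num)]
      conv_lhs => rw [hD]
      have hI3 : Complex.I ^ 3 = -Complex.I := by
        rw [pow_succ, Complex.I_sq]; ring
      ring_nf
      rw [hI3, Complex.I_sq]
      ring
    · simp only
      rw [abs_div, abs_div, abs_of_pos hr, ← mul_div_assoc, abs_neg]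
      rw [abs_sub_comm D.re D.im] at h
      exact (div_le_div_iff_of_pos_right hr).2 h

theorem diff (s : Fin 4) (k i k' i' : ℤ) : pos (s, k', i') - pos (s, k, i)
    = zeta ^ (s : ℕ) * ⟨((k' - k : ℤ) : ℝ), ((k' - k : ℤ) : ℝ) / 2 - ((i - i' : ℤ) : ℝ)⟩ := by
  rw [Complex.mk_eq_add_mul_I]
  unfold pos
  push_cast
  ring

theorem half (hTIG : S_TIG) (hNET : S_NET) (hOM : S_OM) (x y : V) (s : Fin 4) (d : ℂ)
    (hD : pos y - pos x = zeta ^ (s : ℕ) * d) (hd : |d.im| ≤ 5 / 12 * d.re)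
    (hbig : 100 < ‖pos x - pos y‖) :
    ∃ p : G.Walk x y, wt p ≤ ‖pos x - pos y‖ + 9000 := by
  obtain ⟨k, i, h1⟩ := hNET (pos x) s
  obtain ⟨k', i', h2⟩ := hNET (pos y) s
  have hnd : ‖d‖ = ‖pos x - pos y‖ := by
    rw [norm_sub_rev, hD, norm_zeta_mul]
  have hdre0 : 0 ≤ d.re := by
    have := abs_nonneg d.im
    linarith
  have hdre : 50 ≤ d.re := by
    have := Complex.norm_le_abs_re_add_abs_im d
    rw [hnd, abs_of_nonneg hdre0] at this
    linarith
  obtain ⟨w, hw⟩ : ∃ w : ℂ, w = ⟨((k' - k : ℤ) : ℝ), ((k' - k : ℤ) : ℝ) / 2 - ((i - i' : ℤ) : ℝ)⟩ :=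
    ⟨_, rfl⟩
  have hdiff := diff s k i k' i'
  rw [← hw] at hdiff
  have hwd : ‖w - d‖ ≤ 3 / 2 := by
    rw [← norm_zeta_mul (s : ℕ) (w - d), mul_sub, ← hdiff, ← hD]
    have : pos (s, k', i') - pos (s, k, i) - (pos y - pos x)
        = (pos (s, k', i') - pos y) - (pos (s, k, i) - pos x) := by ring
    rw [this]
    refine (norm_sub_le _ _).trans ?_
    linarith
  have hre := (Complex.abs_re_le_norm (w - d)).trans hwd
  have him := (Complex.abs_im_le_norm (w - d)).trans hwd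
  rw [Complex.sub_re, abs_le] at hre
  rw [Complex.sub_im, abs_le] at him
  have hwre : w.re = ((k' - k : ℤ) : ℝ) := by rw [hw]
  have hwim : w.im = ((k' - k : ℤ) : ℝ) / 2 - ((i - i' : ℤ) : ℝ) := by rw [hw]
  rw [abs_le] at hd
  rw [hwre] at hre
  rw [hwim] at him
  have hM0 : (0 : ℝ) ≤ ((i - i' : ℤ) : ℝ) := by linarith [hre.1, hre.2, him.1, him.2, hd.1, hd.2]
  have hMN : ((i - i' : ℤ) : ℝ) ≤ ((k' - k : ℤ) : ℝ) := by
    linarith [hre.1, hre.2, him.1, him.2, hd.1, hd.2]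
  have hM0' : 0 ≤ i - i' := by exact_mod_cast hM0
  have hMN' : i - i' ≤ k' - k := by exact_mod_cast hMN
  obtain ⟨p, hp⟩ := hTIG s k i (k' - k).toNat (i - i').toNat (by omega)
  have e1 : k + ((k' - k).toNat : ℤ) = k' := by omega
  have e2 : i - ((i - i').toNat : ℤ) = i' := by omega
  obtain ⟨p, hp⟩ : ∃ p : G.Walk (s, k, i) (s, k', i'),
      wt p ≤ ‖pos (s, k', i') - pos (s, k, i)‖ + 40 := by
    have h3 := hTIG s k i (k' - k).toNat (i - i').toNat (by omega)
    rw [e1, e2] at h3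
    exact h3
  obtain ⟨q, hq⟩ := short hOM (x := x) (y := (s, k, i)) (by
    rw [norm_sub_rev]; linarith)
  obtain ⟨r, hr⟩ := short hOM (x := (s, k', i')) (y := y) (by linarith)
  refine ⟨(q.append p).append r, ?_⟩
  rw [wt_append, wt_append]
  have h5 : ‖pos (s, k', i') - pos (s, k, i)‖ ≤ ‖pos x - pos y‖ + 3 / 2 := by
    rw [hdiff, norm_zeta_mul]
    have : ‖w‖ ≤ ‖d‖ + ‖w - d‖ := by
      have := norm_add_le d (w - d)
      rwa [add_sub_cancel] at this
    linarith
  linarith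

theorem s_UPP (hTIG : S_TIG) (hNET : S_NET) (hSHO : S_SHO) (hOM : S_OM) : S_UPP := by
  intro x y
  by_cases hs : ‖pos x - pos y‖ ≤ 100
  · obtain ⟨p, hp⟩ := hSHO x y
    refine ⟨p, ?_⟩
    have := norm_nonneg (pos x - pos y)
    linarith
  · push Not at hs
    obtain ⟨s, d, hD, hd⟩ := ang (pos y - pos x)
    rcases le_total 0 d.re with h | h
    · rw [abs_of_nonneg h] at hd
      exact half hTIG hNET hOM x y s d hD hd hs
    · rw [abs_of_nonpos h] at hd
      obtain ⟨p, hp⟩ := half hTIG hNET hOM y x s (-d) (by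
        rw [mul_neg, ← hD]; ring) (by simpa using hd) (by rwa [norm_sub_rev])
      refine ⟨p.reverse, ?_⟩
      rw [wt_reverse hOM, norm_sub_rev]
      exact hp

end Pool.Agent.L7h76.WN
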